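import Mathlib

set_option autoImplicit false

namespace Pool.Agent.Results.MP_10a600_co.Complete

variable {V : Type*}

/-- the open `M`-distance pattern of `u` -/
def pat (G : SimpleGraph V) (M : Set V) (u : V) : Set ℕ := {d | ∃ v ∈ M, v ≠ u ∧ G.dist u v = d}

/-- ODPU-set: nonempty, with the same pattern at every vertex -/
def IsODPU (G : SimpleGraph V) (M : Set V) : Prop := M.Nonempty ∧ ∀ u w, pat G M u = pat G M w

/-- total dominating set -/
def IsTD (G : SimpleGraph V) (S : Set V) : Prop := ∀ v, ∃ s ∈ S, G.Adj v s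

theorem step (G : SimpleGraph V) (hG : G.Connected) {v w : V} (h : v ≠ w) :
    ∃ s, G.Adj w s ∧ G.dist v s + 1 ≤ G.dist v w := by
  obtain ⟨p, hp⟩ := hG.exists_walk_length_eq_dist w v
  cases p with
  | nil => exact absurd rfl h
  | cons ha q =>
    refine ⟨_, ha, ?_⟩
    have := G.dist_le q
    rw [SimpleGraph.Walk.length_cons] at hp
    rw [G.dist_comm, G.dist_comm (u := v)]
    omega

theorem result [Finite V] (G : SimpleGraph V) (hG : G.Connected) :
    (∀ S, IsTD G S → IsODPU G S) ↔ G = ⊤ := by
  constructor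
  · intro h
    by_contra hne
    obtain ⟨x, y, hxy, hn⟩ : ∃ x y, x ≠ y ∧ ¬ G.Adj x y := by
      by_contra hc
      push Not at hc
      exact hne (by ext a b; exact ⟨fun h => h.ne, hc a b⟩)
    haveI := hG.nonempty
    obtain ⟨⟨v, u⟩, hm⟩ := Finite.exists_max fun p : V × V => G.dist p.1 p.2
    have h2 : 2 ≤ G.dist v u := by
      have h0 := hG.pos_dist_of_ne hxy
      have h1 : G.dist x y ≠ 1 := fun e => hn (SimpleGraph.dist_eq_one_iff_adj.1 e)
      have := hm (x, y)
      simp only at this
      omega
    have hvu : v ≠ u := by rintro rfl; simp at h2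
    have htd : IsTD G {s | G.dist v s < G.dist v u} := by
      intro w
      by_cases hw : v = w
      · subst hw
        obtain ⟨s, hs, -⟩ := step G hG hvu.symm
        refine ⟨s, ?_, hs⟩
        have := SimpleGraph.dist_eq_one_iff_adj.2 hs
        show G.dist v s < _
        omega
      · obtain ⟨s, hs, hl⟩ := step G hG hw
        have := hm (v, w)
        simp only at this
        exact ⟨s, show G.dist v s < _ by omega, hs⟩
    have hp := (h _ htd).2 u v
    have : G.dist v u ∈ pat G {s | G.dist v s < G.dist v u} u :=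
      ⟨v, show G.dist v v < _ by rw [SimpleGraph.dist_self]; omega, hvu, G.dist_comm⟩
    rw [hp] at this
    obtain ⟨s, hs, -, e⟩ := this
    exact absurd e (ne_of_lt hs)
  · rintro rfl S hS
    have key : ∀ u, pat ⊤ S u = {1} := by
      intro u
      ext d
      constructor
      · rintro ⟨v, -, hv, rfl⟩
        exact SimpleGraph.dist_eq_one_iff_adj.2 hv.symm
      · rintro rfl
        obtain ⟨s, hs, ha⟩ := hS u
        exact ⟨s, hs, ha.ne', SimpleGraph.dist_eq_one_iff_adj.2 ha⟩
    obtain ⟨u⟩ := hG.nonempty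
    obtain ⟨s, hs, -⟩ := hS u
    exact ⟨⟨s, hs⟩, fun a b => by rw [key, key]⟩

end Pool.Agent.Results.MP_10a600_co.Complete
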